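import Mathlib

/-!
Dirichlet subsolutions with measure data: definitions.
-/

set_option autoImplicit false

open MeasureTheory
open scoped ContDiff

namespace Pool.Agent.MP_7504ef_an

/-- Euclidean space -/
abbrev E (N : ℕ) : Type := EuclideanSpace ℝ (Fin N)

variable {N : ℕ}

/-- derivative in the direction of the `i`-th coordinate -/
noncomputable def pd (i : Fin N) (f : E N → ℝ) (x : E N) : ℝ :=
  fderiv ℝ f x (EuclideanSpace.single i 1)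

/-- the Laplacian -/
noncomputable def lap (f : E N → ℝ) (x : E N) : ℝ := ∑ i, pd i (pd i f) x

/-- `u` is integrable and `-Δ u ≤ μ₁ - μ₂` against smooth functions that vanish on the boundary and
are nonnegative in `Ω` -/
def Sub (Ω : Set (E N)) (μ₁ μ₂ : Measure (E N)) (u : E N → ℝ) : Prop :=
  IntegrableOn u Ω ∧ ∀ ζ : E N → ℝ, ContDiff ℝ ∞ ζ → (∀ x ∈ frontier Ω, ζ x = 0) →
    (∀ x ∈ Ω, 0 ≤ ζ x) →
    -∫ x in Ω, u x * lap ζ x ≤ ∫ x in Ω, ζ x ∂μ₁ - ∫ x in Ω, ζ x ∂μ₂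

/-- smooth functions with compact support in `Ω` -/
def Test (Ω : Set (E N)) (φ : E N → ℝ) : Prop :=
  ContDiff ℝ ∞ φ ∧ HasCompactSupport φ ∧ tsupport φ ⊆ Ω

/-- the distributional Laplacian of `w` in `Ω` is a finite signed measure `ν₁ - ν₂` -/
def LapFin (Ω : Set (E N)) (w : E N → ℝ) : Prop :=
  ∃ ν₁ ν₂ : Measure (E N), IsFiniteMeasure ν₁ ∧ IsFiniteMeasure ν₂ ∧ ∀ φ, Test Ω φ →
    ∫ x in Ω, w x * lap φ x = ∫ x in Ω, φ x ∂ν₁ - ∫ x in Ω, φ x ∂ν₂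

/-- `w` lies in the closure of the test functions in `W^{1,1}(Ω)` -/
def W011 (Ω : Set (E N)) (w : E N → ℝ) : Prop :=
  IntegrableOn w Ω ∧ ∃ G : Fin N → E N → ℝ, (∀ i, IntegrableOn (G i) Ω) ∧ ∀ ε > 0, ∃ φ, Test Ω φ ∧
    ∫ x in Ω, |φ x - w x| ≤ ε ∧ ∀ i, ∫ x in Ω, |pd i φ x - G i x| ≤ ε

/-- the conclusion `C` holds for the positive part of every subsolution -/
def AllSub (Ω : Set (E N)) (C : Set (E N) → (E N → ℝ) → Prop) : Prop :=
  ∀ (μ₁ μ₂ : Measure (E N)) (u : E N → ℝ), IsFiniteMeasure μ₁ → IsFiniteMeasure μ₂ →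
    Sub Ω μ₁ μ₂ u → C Ω fun x => max (u x) 0

end Pool.Agent.MP_7504ef_an
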