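import Pool.Agent.MP_7504ef_an.St

set_option autoImplicit false

namespace Pool.Agent.MP_7504ef_an

theorem SUR_pf : SUR_st := fun N m ρ y h hy p => by
  obtain ⟨L, hL⟩ := (Finsupp.linearCombination ℝ _).exists_leftInverse_of_injective
    (LinearMap.ker_eq_bot.2 (h.li y hy))
  let f := (Finsupp.linearCombination ℝ fun k : {k // ρ k y = 0} => p k) ∘ₗ L
  refine ⟨(InnerProductSpace.toDual ℝ (E N)).symm f.toContinuousLinearMap, fun k hk => ?_⟩
  have e := LinearMap.congr_fun hL (Finsupp.single ⟨k, hk⟩ 1)
  rw [LinearMap.comp_apply, Finsupp.linearCombination_single, one_smul] at e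
  rw [← InnerProductSpace.toDual_symm_apply (𝕜 := ℝ), real_inner_comm,
    InnerProductSpace.toDual_symm_apply]
  exact (congrArg (Finsupp.linearCombination ℝ fun k : {k // ρ k y = 0} => p k) e).trans (by simp)

end Pool.Agent.MP_7504ef_an
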